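import Mathlib

/-!
# The generalised inner product against products of functions which miss one party

Babai, Nisan and Szegedy: `k + 1` parties, the party `j` holds the bits `y j c`, `c : ι`. If the
function `χ j` does not depend on `y j`, the correlation of `∏ j, χ j` with the generalised inner
product of the columns in `A` is at most `(1 - 2 ^ (- k)) ^ (|A| / 2 ^ k)`.
-/

set_option autoImplicit false
set_option linter.unusedSectionVars false

open Finset

namespace Pool.Agent.CERT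

variable {ι : Type} [Fintype ι] [DecidableEq ι]

/-- The generalised inner product of the columns in `A`, as a sign. -/
noncomputable def gip {k : ℕ} (A : Finset ι) (y : Fin k → ι → Bool) : ℂ :=
  ∏ c ∈ A, if ∀ j, y j c = true then -1 else 1

lemma gip_conj {k : ℕ} (A : Finset ι) (y : Fin k → ι → Bool) :
    (starRingEnd ℂ) (gip A y) = gip A y := by
  unfold gip
  rw [map_prod]
  refine prod_congr rfl fun c _ => ?_
  split_ifs <;> simp

lemma norm_gip {k : ℕ} (A : Finset ι) (y : Fin k → ι → Bool) : ‖gip A y‖ = 1 := by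
  unfold gip
  rw [norm_prod]
  refine prod_eq_one fun c _ => ?_
  split_ifs <;> simp

lemma gip_cons_mul {k : ℕ} (A : Finset ι) (z z' : ι → Bool) (y : Fin k → ι → Bool) :
    gip A (Fin.cons z y : Fin (k + 1) → ι → Bool) * gip A (Fin.cons z' y : Fin (k + 1) → ι → Bool) =
      gip (A.filter fun c => z c ≠ z' c) y := by
  unfold gip
  rw [← prod_mul_distrib, prod_filter]
  refine prod_congr rfl fun c _ => ?_
  simp only [Fin.forall_fin_succ, Fin.cons_zero, Fin.cons_succ]
  by_cases h : ∀ j, y j c = true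
  · rcases hz : z c <;> rcases hz' : z' c <;> simp [h]
  · rcases hz : z c <;> rcases hz' : z' c <;> simp [h]

lemma sum_filter_pow (A : Finset ι) (q : ℝ) (z : ι → Bool) :
    ∑ z' : ι → Bool, q ^ (A.filter fun c => z c ≠ z' c).card =
      (Fintype.card (ι → Bool) : ℝ) * ((1 + q) / 2) ^ A.card := by
  have h1 : ∀ z' : ι → Bool, q ^ (A.filter fun c => z c ≠ z' c).card =
      ∏ c, if c ∈ A ∧ z c ≠ z' c then q else 1 := by
    intro z'
    rw [← prod_filter, prod_const]
    congr 2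
    ext c
    simp
  simp_rw [h1]
  have h2 := Finset.prod_univ_sum (fun _ : ι => (univ : Finset Bool))
    (fun (c : ι) (b : Bool) => if c ∈ A ∧ z c ≠ b then q else 1)
  rw [Fintype.piFinset_univ] at h2
  rw [← h2]
  have h3 : ∀ c, ∑ b : Bool, (if c ∈ A ∧ z c ≠ b then q else 1) =
      2 * (if c ∈ A then (1 + q) / 2 else 1) := by
    intro c
    by_cases hc : c ∈ A
    · rcases hz : z c <;> simp [hc] <;> ring
    · simp [hc]
  simp_rw [h3]
  rw [prod_mul_distrib, prod_const, ← prod_filter, prod_const]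
  simp

lemma bns_zero (A : Finset ι) (χ : Fin 1 → (Fin 1 → ι → Bool) → ℂ)
    (h1 : ∀ j y, ‖χ j y‖ ≤ 1) (h2 : ∀ j y b, χ j (Function.update y j b) = χ j y) :
    ‖∑ y, (∏ j, χ j y) * gip A y‖ / Fintype.card (Fin 1 → ι → Bool) ≤ (0 : ℝ) ^ A.card := by
  have hc : ∀ y, (∏ j, χ j y) * gip A y = χ 0 (fun _ _ => false) * gip A y := by
    intro y
    congr 1
    rw [Fin.prod_univ_one, ← h2 0 y (fun _ => false)]
    congr 1
    ext j c
    rw [Subsingleton.elim j 0]
    simp
  simp_rw [hc]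
  rw [← mul_sum]
  rcases A.eq_empty_or_nonempty with rfl | hA
  · simp only [gip, prod_empty, sum_const, nsmul_eq_mul, mul_one, card_empty, pow_zero]
    rw [norm_mul]
    have : (0 : ℝ) < Fintype.card (Fin 1 → ι → Bool) := by exact_mod_cast Fintype.card_pos
    rw [div_le_one this, card_univ, Complex.norm_natCast]
    exact mul_le_of_le_one_left this.le (h1 0 _)
  · have h0 : ∑ y : Fin 1 → ι → Bool, gip A y = 0 := by
      rw [← (Equiv.funUnique (Fin 1) (ι → Bool)).symm.sum_comp]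
      have h3 : ∀ z : ι → Bool, gip A ((Equiv.funUnique (Fin 1) (ι → Bool)).symm z) =
          ∏ c, (if c ∈ A then (if z c = true then (-1 : ℂ) else 1) else 1) := by
        intro z
        unfold gip
        rw [prod_ite_mem, univ_inter]
        refine prod_congr rfl fun c _ => ?_
        simp [Equiv.funUnique]
      simp_rw [h3]
      have h4 := Finset.prod_univ_sum (fun _ : ι => (univ : Finset Bool))
        (fun (c : ι) (b : Bool) => if c ∈ A then (if b = true then (-1 : ℂ) else 1) else 1)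
      rw [Fintype.piFinset_univ] at h4
      rw [← h4]
      obtain ⟨c, hc⟩ := hA
      refine prod_eq_zero (mem_univ c) ?_
      simp [hc]
    rw [h0, mul_zero, norm_zero, zero_div, zero_pow hA.card_pos.ne']

/-- The Cauchy-Schwarz step. -/
lemma cs_step {Z Y : Type} [Fintype Z] [Fintype Y] (a : Y → ℂ) (ha : ∀ y, ‖a y‖ ≤ 1)
    (F : Z → Y → ℂ) :
    ‖∑ y, a y * ∑ z, F z y‖ ^ 2 ≤
      (Fintype.card Y : ℝ) * ∑ z, ∑ z', ‖∑ y, F z y * (starRingEnd ℂ) (F z' y)‖ := by
  have e1 : ‖∑ y, a y * ∑ z, F z y‖ ≤ ∑ y, ‖∑ z, F z y‖ := by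
    refine (norm_sum_le _ _).trans (sum_le_sum fun y _ => ?_)
    rw [norm_mul]
    exact mul_le_of_le_one_left (norm_nonneg _) (ha _)
  have e2 : (∑ y, ‖∑ z, F z y‖) ^ 2 ≤ (Fintype.card Y : ℝ) * ∑ y, ‖∑ z, F z y‖ ^ 2 := by
    have := sq_sum_le_card_mul_sum_sq (s := (univ : Finset Y)) (f := fun y => ‖∑ z, F z y‖)
    rwa [card_univ] at this
  have e4 : ((∑ y, ‖∑ z, F z y‖ ^ 2 : ℝ) : ℂ) =
      ∑ z, ∑ z', ∑ y, F z y * (starRingEnd ℂ) (F z' y) := by
    have e5 : ∀ y, ((‖∑ z, F z y‖ ^ 2 : ℝ) : ℂ) =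
        ∑ z, ∑ z', F z y * (starRingEnd ℂ) (F z' y) := by
      intro y
      push_cast
      rw [← Complex.mul_conj', map_sum, sum_mul_sum]
    rw [Complex.ofReal_sum]
    simp_rw [e5]
    rw [sum_comm]
    refine sum_congr rfl fun z _ => ?_
    rw [sum_comm]
  have e3 : (∑ y, ‖∑ z, F z y‖ ^ 2 : ℝ) ≤
      ∑ z, ∑ z', ‖∑ y, F z y * (starRingEnd ℂ) (F z' y)‖ := by
    have e6 : (∑ y, ‖∑ z, F z y‖ ^ 2 : ℝ) = ‖((∑ y, ‖∑ z, F z y‖ ^ 2 : ℝ) : ℂ)‖ := by
      rw [Complex.norm_real, Real.norm_of_nonneg (sum_nonneg fun y _ => sq_nonneg _)]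
    rw [e6, e4]
    refine (norm_sum_le _ _).trans (sum_le_sum fun z _ => norm_sum_le _ _)
  calc ‖∑ y, a y * ∑ z, F z y‖ ^ 2 ≤ (∑ y, ‖∑ z, F z y‖) ^ 2 := by gcongr
    _ ≤ (Fintype.card Y : ℝ) * ∑ y, ‖∑ z, F z y‖ ^ 2 := e2
    _ ≤ _ := by gcongr

theorem bns (k : ℕ) : ∀ (A : Finset ι) (χ : Fin (k + 1) → (Fin (k + 1) → ι → Bool) → ℂ),
    (∀ j y, ‖χ j y‖ ≤ 1) → (∀ j y b, χ j (Function.update y j b) = χ j y) →
    (‖∑ y, (∏ j, χ j y) * gip A y‖ / Fintype.card (Fin (k + 1) → ι → Bool)) ^ (2 ^ k) ≤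
      (1 - (1 / 2 : ℝ) ^ k) ^ A.card := by
  induction k with
  | zero =>
    intro A χ h1 h2
    rw [pow_zero, pow_zero, pow_one, sub_self]
    exact bns_zero A χ h1 h2
  | succ k ih =>
    intro A χ h1 h2
    obtain ⟨C, hC⟩ : ∃ C : ℝ, C = Fintype.card (ι → Bool) := ⟨_, rfl⟩
    obtain ⟨C', hC'⟩ : ∃ C' : ℝ, C' = Fintype.card (Fin (k + 1) → ι → Bool) := ⟨_, rfl⟩
    have hCpos : 0 < C := by rw [hC]; exact_mod_cast Fintype.card_pos
    have hC'pos : 0 < C' := by rw [hC']; exact_mod_cast Fintype.card_pos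
    have hcard : (Fintype.card (Fin (k + 1 + 1) → ι → Bool) : ℝ) = C * C' := by
      rw [hC, hC', ← Nat.cast_mul, ← Fintype.card_prod]
      exact_mod_cast (Fintype.card_congr (Fin.consEquiv fun _ : Fin (k + 2) => ι → Bool)).symm
    -- the inner function
    set F : (ι → Bool) → (Fin (k + 1) → ι → Bool) → ℂ := fun z y =>
      (∏ j : Fin (k + 1), χ j.succ (Fin.cons z y : Fin (k + 2) → ι → Bool)) *
        gip A (Fin.cons z y : Fin (k + 2) → ι → Bool) with hF
    have hsum : ∑ y, (∏ j, χ j y) * gip A y =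
        ∑ y : Fin (k + 1) → ι → Bool, χ 0 (Fin.cons (fun _ => false) y : Fin (k + 2) → ι → Bool) *
          ∑ z, F z y := by
      rw [← (Fin.consEquiv fun _ : Fin (k + 2) => ι → Bool).sum_comp, Fintype.sum_prod_type,
        sum_comm]
      refine sum_congr rfl fun y _ => ?_
      rw [mul_sum]
      refine sum_congr rfl fun z _ => ?_
      have e : (Fin.consEquiv fun _ : Fin (k + 2) => ι → Bool) (z, y) =
        (Fin.cons z y : Fin (k + 2) → ι → Bool) := rfl
      rw [e, Fin.prod_univ_succ, hF, mul_assoc]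
      congr 1
      rw [← h2 0 (Fin.cons z y) (fun _ => false), Fin.update_cons_zero]
    have hS2 : ‖∑ y, (∏ j, χ j y) * gip A y‖ ^ 2 ≤
        C' * ∑ z : ι → Bool, ∑ z' : ι → Bool,
          ‖∑ y : Fin (k + 1) → ι → Bool, F z y * (starRingEnd ℂ) (F z' y)‖ := by
      rw [hsum, hC']
      exact cs_step _ (fun y => h1 0 _) F
    have hin : ∀ z z' : ι → Bool,
        (‖∑ y : Fin (k + 1) → ι → Bool, F z y * (starRingEnd ℂ) (F z' y)‖ / C') ^ (2 ^ k) ≤
          (1 - (1 / 2 : ℝ) ^ k) ^ (A.filter fun c => z c ≠ z' c).card := by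
      intro z z'
      have h3 := ih (A.filter fun c => z c ≠ z' c)
        (fun j y => χ j.succ (Fin.cons z y : Fin (k + 2) → ι → Bool) *
          (starRingEnd ℂ) (χ j.succ (Fin.cons z' y : Fin (k + 2) → ι → Bool)))
        (fun j y => by
          rw [norm_mul, RCLike.norm_conj]
          exact mul_le_one₀ (h1 _ _) (norm_nonneg _) (h1 _ _))
        (fun j y b => by
          rw [Fin.cons_update, Fin.cons_update, h2, h2])
      have e : ∑ y : Fin (k + 1) → ι → Bool, F z y * (starRingEnd ℂ) (F z' y) =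
          ∑ y : Fin (k + 1) → ι → Bool, (∏ j : Fin (k + 1),
            (χ j.succ (Fin.cons z y : Fin (k + 2) → ι → Bool) *
              (starRingEnd ℂ) (χ j.succ (Fin.cons z' y : Fin (k + 2) → ι → Bool)))) *
            gip (A.filter fun c => z c ≠ z' c) y := by
        refine sum_congr rfl fun y _ => ?_
        rw [hF, ← gip_cons_mul, prod_mul_distrib, ← map_prod]
        simp only [map_mul, gip_conj]
        ring
      rw [hC', e]
      exact h3
    -- the average
    have hav : (‖∑ y, (∏ j, χ j y) * gip A y‖ / (C * C')) ^ 2 ≤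
        ∑ p ∈ (univ : Finset ((ι → Bool) × (ι → Bool))), (1 / C ^ 2) *
          (‖∑ y : Fin (k + 1) → ι → Bool, F p.1 y * (starRingEnd ℂ) (F p.2 y)‖ / C') := by
      rw [← mul_sum, ← sum_div, Fintype.sum_prod_type, div_pow, div_le_iff₀ (by positivity)]
      refine hS2.trans (le_of_eq ?_)
      field_simp
    have hjen := Real.pow_arith_mean_le_arith_mean_pow
      (univ : Finset ((ι → Bool) × (ι → Bool))) (fun _ => 1 / C ^ 2)
      (fun p => ‖∑ y : Fin (k + 1) → ι → Bool, F p.1 y * (starRingEnd ℂ) (F p.2 y)‖ / C')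
      (fun _ _ => by positivity)
      (by
        rw [sum_const, card_univ, Fintype.card_prod, nsmul_eq_mul, Nat.cast_mul, ← hC]
        field_simp)
      (fun _ _ => by positivity) (2 ^ k)
    rw [hcard, pow_succ' 2 k, pow_mul]
    calc ((‖∑ y, (∏ j, χ j y) * gip A y‖ / (C * C')) ^ 2) ^ 2 ^ k
        ≤ (∑ p ∈ (univ : Finset ((ι → Bool) × (ι → Bool))), (1 / C ^ 2) *
          (‖∑ y : Fin (k + 1) → ι → Bool, F p.1 y * (starRingEnd ℂ) (F p.2 y)‖ / C')) ^ 2 ^ k :=
          pow_le_pow_left₀ (by positivity) hav _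
      _ ≤ _ := hjen
      _ ≤ ∑ p ∈ (univ : Finset ((ι → Bool) × (ι → Bool))), (1 / C ^ 2) *
          (1 - (1 / 2 : ℝ) ^ k) ^ (A.filter fun c => p.1 c ≠ p.2 c).card := by
          refine sum_le_sum fun p _ => ?_
          exact mul_le_mul_of_nonneg_left (hin p.1 p.2) (by positivity)
      _ = (1 - (1 / 2 : ℝ) ^ (k + 1)) ^ A.card := by
          rw [← mul_sum, Fintype.sum_prod_type]
          simp_rw [sum_filter_pow]
          rw [sum_const, card_univ, nsmul_eq_mul, ← hC]
          have e : (1 + (1 - (1 / 2 : ℝ) ^ k)) / 2 = 1 - (1 / 2 : ℝ) ^ (k + 1) := by ring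
          rw [e]
          field_simp

/-- The same for `k ≥ 1` parties and all columns. -/
theorem bns_univ {k : ℕ} (hk : 1 ≤ k) (χ : Fin k → (Fin k → ι → Bool) → ℂ)
    (h1 : ∀ j y, ‖χ j y‖ ≤ 1)
    (h2 : ∀ j y y', (∀ i, i ≠ j → y i = y' i) → χ j y = χ j y') :
    (‖∑ y, (∏ j, χ j y) * gip univ y‖ / 2 ^ (k * Fintype.card ι)) ^ (2 ^ (k - 1)) ≤
      (1 - (1 / 2 : ℝ) ^ (k - 1)) ^ Fintype.card ι := by
  obtain ⟨k, rfl⟩ : ∃ m, k = m + 1 := ⟨k - 1, by omega⟩
  have h := bns k univ χ h1 fun j y b => h2 _ _ _ fun i hi => Function.update_of_ne hi _ _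
  rw [card_univ] at h
  have hc : (Fintype.card (Fin (k + 1) → ι → Bool) : ℝ) = 2 ^ ((k + 1) * Fintype.card ι) := by
    simp only [Fintype.card_fun, Fintype.card_bool, Fintype.card_fin]
    push_cast
    rw [← pow_mul, mul_comm]
  rwa [hc] at h

end Pool.Agent.CERT
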