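import Mathlib

/-!
# The indicator of an interval as a short combination of exponentials
-/

set_option autoImplicit false

open Finset

namespace Pool.Agent.CERT

/-- `e x = exp (2 π i x)` -/
noncomputable def e (x : ℝ) : ℂ := Complex.exp (2 * Real.pi * Complex.I * x)

lemma e_add (x y : ℝ) : e (x + y) = e x * e y := by
  unfold e
  rw [← Complex.exp_add]
  congr 1
  push_cast
  ring

lemma norm_e (x : ℝ) : ‖e x‖ = 1 := by
  unfold e
  have : (2 * Real.pi * Complex.I * x : ℂ) = ((2 * Real.pi * x : ℝ) : ℂ) * Complex.I := by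
    push_cast; ring
  rw [this, Complex.norm_exp_ofReal_mul_I]

lemma e_zero : e 0 = 1 := by simp [e]

lemma e_nsmul (n : ℕ) (x : ℝ) : e (n * x) = e x ^ n := by
  unfold e
  rw [← Complex.exp_nat_mul]
  congr 1
  push_cast
  ring

lemma e_sum {ι : Type*} (s : Finset ι) (f : ι → ℝ) : e (∑ i ∈ s, f i) = ∏ i ∈ s, e (f i) := by
  classical
  induction s using Finset.induction_on with
  | empty => simp [e_zero]
  | insert a s ha ih => rw [sum_insert ha, prod_insert ha, e_add, ih]

lemma e_eq_one_iff (x : ℝ) : e x = 1 ↔ ∃ n : ℤ, x = n := by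
  unfold e
  rw [Complex.exp_eq_one_iff]
  have hpi : (2 * Real.pi * Complex.I : ℂ) ≠ 0 := Complex.two_pi_I_ne_zero
  constructor
  · rintro ⟨n, hn⟩
    refine ⟨n, ?_⟩
    have h1 : (x : ℂ) = n := by
      have h2 : (2 * Real.pi * Complex.I : ℂ) * x = (2 * Real.pi * Complex.I) * n := by
        rw [hn]; ring
      exact mul_left_cancel₀ hpi h2
    exact_mod_cast h1
  · rintro ⟨n, hn⟩
    exact ⟨n, by rw [hn]; push_cast; ring⟩

/-- Orthogonality. -/
lemma sum_e (m : ℕ) (hm : 0 < m) (x : ℤ) :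
    ∑ t ∈ range m, e (t * ((x : ℝ) / m)) = if (m : ℤ) ∣ x then (m : ℂ) else 0 := by
  have hm' : (m : ℝ) ≠ 0 := by positivity
  simp_rw [e_nsmul]
  have h1 : e ((x : ℝ) / m) = 1 ↔ (m : ℤ) ∣ x := by
    rw [e_eq_one_iff]
    constructor
    · rintro ⟨n, hn⟩
      rw [div_eq_iff hm'] at hn
      exact ⟨n, by have : (x : ℝ) = ((m * n : ℤ) : ℝ) := by rw [hn]; push_cast; ring
                   exact_mod_cast this⟩
    · rintro ⟨n, rfl⟩
      exact ⟨n, by push_cast; field_simp⟩
  split_ifs with h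
  · rw [h1.2 h]
    simp
  · have h2 : e ((x : ℝ) / m) ≠ 1 := fun h' => h (h1.1 h')
    rw [geom_sum_eq h2, ← e_nsmul]
    have h3 : e ((m : ℝ) * ((x : ℝ) / m)) = 1 := by
      rw [e_eq_one_iff]
      exact ⟨x, by field_simp⟩
    rw [h3, sub_self, zero_div]

lemma norm_e_sub_one (m t : ℕ) (ht : 0 < t) (htm : t < m) :
    4 * min (t : ℝ) (m - t) / m ≤ ‖e (-(t : ℝ) / m) - 1‖ := by
  have hm : (0 : ℝ) < m := by exact_mod_cast (ht.trans htm)
  have htm' : (t : ℝ) < m := by exact_mod_cast htm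
  have ht' : (0 : ℝ) < t := by exact_mod_cast ht
  have h1 : e (-(t : ℝ) / m) = Complex.exp (Complex.I * ((-(2 * Real.pi * t / m) : ℝ) : ℂ)) := by
    unfold e
    congr 1
    push_cast
    ring
  rw [h1, Complex.norm_exp_I_mul_ofReal_sub_one]
  have h2 : -(2 * Real.pi * t / m) / 2 = -(Real.pi * t / m) := by ring
  rw [h2, Real.sin_neg, norm_mul, norm_neg, Real.norm_eq_abs, Real.norm_eq_abs, abs_two]
  have hs : 2 * min (t : ℝ) (m - t) / m ≤ Real.sin (Real.pi * t / m) := by
    rcases le_total (t : ℝ) (m - t) with h | h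
    · rw [min_eq_left h]
      have h3 : Real.pi * t / m ≤ Real.pi / 2 := by
        rw [div_le_div_iff₀ hm two_pos]
        nlinarith [Real.pi_pos]
      have h4 := Real.mul_le_sin (x := Real.pi * t / m) (by positivity) h3
      calc 2 * (t : ℝ) / m = 2 / Real.pi * (Real.pi * t / m) := by
            have := Real.pi_pos.ne'
            field_simp
        _ ≤ _ := h4
    · rw [min_eq_right h]
      have h3 : Real.pi * (m - t) / m ≤ Real.pi / 2 := by
        rw [div_le_div_iff₀ hm two_pos]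
        nlinarith [Real.pi_pos]
      have h4 := Real.mul_le_sin (x := Real.pi * (m - t) / m)
        (div_nonneg (mul_nonneg Real.pi_pos.le (by linarith)) hm.le) h3
      have h5 : Real.sin (Real.pi * (m - t) / m) = Real.sin (Real.pi * t / m) := by
        rw [← Real.sin_pi_sub]
        congr 1
        field_simp
        ring
      calc 2 * ((m : ℝ) - t) / m = 2 / Real.pi * (Real.pi * (m - t) / m) := by
            have := Real.pi_pos.ne'
            field_simp
        _ ≤ _ := h4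
        _ = _ := h5
  have h6 := le_abs_self (Real.sin (Real.pi * t / m))
  calc 4 * min (t : ℝ) (m - t) / m = 2 * (2 * min (t : ℝ) (m - t) / m) := by ring
    _ ≤ 2 * |Real.sin (Real.pi * t / m)| := by linarith

/-- The Fourier coefficients of the interval `[0, R]` in `ℤ / (2 R + 1)`. -/
noncomputable def dcoef (R t : ℕ) : ℂ :=
  (1 / ((2 * R + 1 : ℕ) : ℂ)) * ∑ j ∈ range (R + 1), e (-(t : ℝ) / ((2 * R + 1 : ℕ) : ℝ)) ^ j

lemma norm_dcoef_zero (R : ℕ) : ‖dcoef R 0‖ ≤ 1 := by
  unfold dcoef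
  simp only [CharP.cast_eq_zero, neg_zero, zero_div, e_zero, one_pow, sum_const, card_range,
    nsmul_eq_mul, mul_one, norm_mul, norm_div, norm_one, Complex.norm_natCast]
  rw [div_mul_eq_mul_div, one_mul, div_le_one (by positivity)]
  exact_mod_cast (by omega : R + 1 ≤ 2 * R + 1)

lemma norm_dcoef (R t : ℕ) (ht : 0 < t) (htm : t < 2 * R + 1) :
    ‖dcoef R t‖ ≤ (1 / 2) * (1 / (t : ℝ) + 1 / ((2 * R + 1 : ℕ) - t : ℝ)) := by
  obtain ⟨m, hm⟩ : ∃ m, m = 2 * R + 1 := ⟨_, rfl⟩
  unfold dcoef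
  rw [← hm] at htm ⊢
  have hmp : (0 : ℝ) < m := by exact_mod_cast (ht.trans htm)
  have htm' : (0 : ℝ) < m - t := by
    have : (t : ℝ) < m := by exact_mod_cast htm
    linarith
  have ht' : (0 : ℝ) < t := by exact_mod_cast ht
  have h1 := norm_e_sub_one m t ht htm
  set w := e (-(t : ℝ) / m) with hw
  have hmin : 0 < min (t : ℝ) (m - t) := lt_min ht' htm'
  have hpos : 0 < ‖w - 1‖ := lt_of_lt_of_le (by positivity) h1
  have hw1 : w ≠ 1 := fun h => by rw [h, sub_self, norm_zero] at hpos; exact lt_irrefl _ hpos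
  rw [geom_sum_eq hw1, norm_mul, norm_div, norm_div, norm_one, Complex.norm_natCast]
  have h2 : ‖w ^ (R + 1) - 1‖ ≤ 2 := by
    refine (norm_sub_le _ _).trans ?_
    rw [norm_pow, hw, norm_e, one_pow, norm_one]
    norm_num
  have h3 : ‖w ^ (R + 1) - 1‖ / ‖w - 1‖ ≤ 2 / (4 * min (t : ℝ) (m - t) / m) := by
    gcongr
  calc 1 / (m : ℝ) * (‖w ^ (R + 1) - 1‖ / ‖w - 1‖) ≤
      1 / (m : ℝ) * (2 / (4 * min (t : ℝ) (m - t) / m)) := by gcongr
    _ = (1 / 2) * (1 / min (t : ℝ) (m - t)) := by field_simp; norm_num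
    _ ≤ _ := by
      have h4 : 1 / min (t : ℝ) (m - t) ≤ 1 / (t : ℝ) + 1 / (m - t : ℝ) := by
        have ha : 0 < 1 / (t : ℝ) := by positivity
        have hb : 0 < 1 / (m - t : ℝ) := by positivity
        rcases min_choice (t : ℝ) (m - t) with h | h <;> rw [h] <;> linarith
      linarith

lemma sum_norm_dcoef (R : ℕ) :
    ∑ t ∈ range (2 * R + 1), ‖dcoef R t‖ ≤ 8 * (1 + Real.log R) := by
  rcases Nat.eq_zero_or_pos R with rfl | hR
  · simp only [mul_zero, zero_add, sum_range_one, CharP.cast_eq_zero, Real.log_zero, add_zero,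
      mul_one]
    exact (norm_dcoef_zero 0).trans (by norm_num)
  rw [sum_range_succ']
  have h1 : ∀ t ∈ range (2 * R), ‖dcoef R (t + 1)‖ ≤
      (1 / 2) * (1 / ((t : ℝ) + 1) + 1 / (((2 * R - 1 - t : ℕ) : ℝ) + 1)) := by
    intro t ht
    rw [mem_range] at ht
    have h2 := norm_dcoef R (t + 1) (by omega) (by omega)
    have h3 : ((2 * R + 1 : ℕ) : ℝ) - ((t + 1 : ℕ) : ℝ) = ((2 * R - 1 - t : ℕ) : ℝ) + 1 := by
      have h4 : 2 * R + 1 = (2 * R - 1 - t) + 1 + (t + 1) := by omega
      rw [h4]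
      push_cast
      have h5 : 2 * R - 1 - t + 1 + (t + 1) - 1 - t = 2 * R - 1 - t + 1 := by omega
      ring
    rw [h3] at h2
    push_cast at h2
    exact h2
  have h2 : ∑ t ∈ range (2 * R), (1 / 2 : ℝ) * (1 / ((t : ℝ) + 1) +
      1 / (((2 * R - 1 - t : ℕ) : ℝ) + 1)) = ∑ t ∈ range (2 * R), 1 / ((t : ℝ) + 1) := by
    rw [← mul_sum, sum_add_distrib,
      sum_range_reflect (fun t => 1 / ((t : ℝ) + 1)) (2 * R)]
    ring
  have h3 : ∑ t ∈ range (2 * R), 1 / ((t : ℝ) + 1) ≤ 1 + Real.log ((2 * R : ℕ) : ℝ) := by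
    have h4 := harmonic_le_one_add_log (2 * R)
    refine le_trans (le_of_eq ?_) h4
    unfold harmonic
    push_cast
    refine sum_congr rfl fun t _ => ?_
    rw [one_div]
  have h4 : Real.log ((2 * R : ℕ) : ℝ) = Real.log 2 + Real.log R := by
    push_cast
    rw [Real.log_mul (by norm_num) (by positivity)]
  have h5 : 0 ≤ Real.log R := Real.log_natCast_nonneg R
  have h6 : Real.log 2 ≤ 1 := by linarith [Real.log_two_lt_d9]
  linarith [sum_le_sum h1, norm_dcoef_zero R]

/-- The indicator of `0 ≤ x` for `|x| ≤ R` is a combination of exponentials with coefficients of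
total size `O(1 + log R)`. -/
theorem dirichlet (R : ℕ) : ∃ (m : ℕ) (α : Fin m → ℂ), ∑ t, ‖α t‖ ≤ 8 * (1 + Real.log R) ∧
    ∀ x : ℤ, |x| ≤ R → ∑ t, α t * e ((t : ℝ) * ((x : ℝ) / m)) = if 0 ≤ x then 1 else 0 := by
  refine ⟨2 * R + 1, fun t => dcoef R t, ?_, fun x hx => ?_⟩
  · rw [← sum_range (fun t => ‖dcoef R t‖)]
    exact sum_norm_dcoef R
  · rw [← sum_range (fun t => dcoef R t * e ((t : ℝ) * ((x : ℝ) / ((2 * R + 1 : ℕ) : ℝ))))]
    set m : ℕ := 2 * R + 1 with hm
    have hmp : (0 : ℝ) < m := by rw [hm]; positivity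
    have h1 : ∀ t ∈ range m, dcoef R t * e ((t : ℝ) * ((x : ℝ) / m)) =
        (1 / (m : ℂ)) * ∑ j ∈ range (R + 1), e ((t : ℝ) * (((x - j : ℤ) : ℝ) / m)) := by
      intro t _
      unfold dcoef
      rw [← hm, mul_assoc, sum_mul]
      congr 1
      refine sum_congr rfl fun j _ => ?_
      rw [← e_nsmul, ← e_add]
      congr 1
      push_cast
      field_simp
      ring
    rw [sum_congr rfl h1, ← mul_sum, sum_comm]
    simp_rw [sum_e m (by omega)]
    have hx' := abs_le.1 hx
    split_ifs with h0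
    · rw [sum_eq_single_of_mem x.toNat (by rw [mem_range]; omega)]
      · rw [if_pos (by
          have : x - (x.toNat : ℤ) = 0 := by omega
          rw [this]; exact dvd_zero _)]
        have : (m : ℂ) ≠ 0 := by exact_mod_cast (by omega : m ≠ 0)
        field_simp
      · intro j hj hne
        rw [mem_range] at hj
        rw [if_neg]
        intro hd
        have h2 : x - (j : ℤ) = 0 := by
          apply Int.eq_zero_of_abs_lt_dvd hd
          rw [abs_lt]
          omega
        omega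
    · rw [sum_eq_zero, mul_zero]
      intro j hj
      rw [mem_range] at hj
      rw [if_neg]
      intro hd
      have h2 : x - (j : ℤ) = 0 := by
        apply Int.eq_zero_of_abs_lt_dvd hd
        rw [abs_lt]
        omega
      omega

/-- The indicator of one equation in a finite abelian group is an average of characters. -/
theorem eq_indicator {Γ : Type} [AddCommGroup Γ] [Finite Γ] [DecidableEq Γ] (x b : Γ) :
    (if x = b then (1 : ℂ) else 0) =
      ∑ᶠ ψ : AddChar Γ ℂ, (1 / (Nat.card Γ : ℂ)) * (ψ x * ψ (-b)) := by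
  classical
  have := Fintype.ofFinite Γ
  rw [finsum_eq_sum_of_fintype]
  simp_rw [← AddChar.map_add_eq_mul]
  rw [← mul_sum, AddChar.sum_apply_eq_ite]
  have h : (Fintype.card Γ : ℂ) ≠ 0 := by exact_mod_cast Fintype.card_ne_zero
  by_cases hx : x = b
  · simp [hx, h]
  · have : x + -b ≠ 0 := fun h' => hx (by rwa [← sub_eq_add_neg, sub_eq_zero] at h')
    simp [hx, this]

end Pool.Agent.CERT
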