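import Pool.Agent.Lib.CERT.Base

/-! # PROJECT CERT: small tools -/

open Finset

namespace CliqueCert

open SmallDepth CliqueDepth

theorem tl_indC_eq (P : Prop) [Decidable P] : indC P = if P then 1 else 0 := by
  unfold indC
  split_ifs with h
  · rw [ind_true h]; simp
  · rw [ind_false h]; simp

theorem tl_indC_congr {P Q : Prop} (h : P ↔ Q) : indC P = indC Q := by rw [propext h]

theorem tl_indC_and (P Q : Prop) : indC (P ∧ Q) = indC P * indC Q := by
  unfold indC
  rw [ind_and]
  push_cast
  rfl

theorem tl_norm_indC_le (P : Prop) : ‖indC P‖ ≤ 1 := by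
  classical
  rw [tl_indC_eq]
  split_ifs <;> simp

theorem tl_gsum_eq {σ M : Type} [AddCommMonoid M] (s : Finset σ) (P : σ → Prop) [DecidablePred P]
    (c : σ → M) : gsum s P c = ∑ S ∈ s, if P S then c S else 0 := by
  unfold gsum
  rw [← sum_filter]
  congr!

theorem tl_gsum_congr {σ M : Type} [AddCommMonoid M] {s : Finset σ} {P Q : σ → Prop} {c : σ → M}
    (h : ∀ S ∈ s, P S ↔ Q S) : gsum s P c = gsum s Q c := by
  classical
  rw [tl_gsum_eq, tl_gsum_eq]
  exact sum_congr rfl fun S hS => by simp only [h S hS]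

end CliqueCert
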