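import Pool.Agent.Lib.CERT.Base

/-! # PROJECT CERT: simple rules for `Cyl` -/

open Finset

namespace CliqueCert

open SmallDepth CliqueDepth

section parties

variable {k : ℕ} {I : Type}

theorem cylA_mono [Fintype I] [DecidableEq I] {F : (Fin k → I → Bool) → ℂ} {B B' : ℝ}
    (h : Cyl F B) (hB : B ≤ B') : Cyl F B' := fun χ h1 h2 => (h χ h1 h2).trans hB

theorem cylA_mul_prod [Fintype I] [DecidableEq I] {F : (Fin k → I → Bool) → ℂ} {B : ℝ}
    (h : Cyl F B) {σ : Type} (s : Finset σ) (P : σ → (Fin k → I → Bool) → ℂ)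
    (hP : ∀ S ∈ s, ∀ y, ‖P S y‖ ≤ 1) (hm : ∀ S ∈ s, ∃ j, Misses (P S) j) :
    Cyl (fun y => F y * ∏ S ∈ s, P S y) B := by
  classical
  induction s using Finset.induction_on with
  | empty => simpa using h
  | insert a s ha ih =>
    have ih' := ih (fun S hS => hP S (mem_insert_of_mem hS))
      (fun S hS => hm S (mem_insert_of_mem hS))
    obtain ⟨j, hj⟩ := hm a (mem_insert_self _ _)
    intro χ h1 h2
    have h3 := ih' (fun i y => if i = j then P a y * χ i y else χ i y)
      (by
        intro i y
        beta_reduce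
        split_ifs
        · rw [norm_mul]
          exact mul_le_one₀ (hP a (mem_insert_self _ _) y) (norm_nonneg _) (h1 _ _)
        · exact h1 _ _)
      (by
        intro i y z hyz
        beta_reduce
        split_ifs with hi
        · subst hi
          rw [hj y z hyz, h2 i y z hyz]
        · exact h2 i y z hyz)
    refine le_trans (le_of_eq ?_) h3
    congr 1
    refine sum_congr rfl fun y _ => ?_
    beta_reduce
    rw [prod_insert ha]
    have h4 : ∏ i, (if i = j then P a y * χ i y else χ i y) = P a y * ∏ i, χ i y := by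
      have h5 : ∀ i, (if i = j then P a y * χ i y else χ i y) =
          (if i = j then P a y else 1) * χ i y := by
        intro i; split_ifs <;> simp
      have h6 : ∏ i, (if i = j then P a y else 1) = P a y := by
        rw [prod_eq_single j (fun i _ hi => if_neg hi) (fun hj => absurd (mem_univ j) hj),
          if_pos rfl]
      rw [prod_congr rfl fun i _ => h5 i, prod_mul_distrib, h6]
    rw [h4]
    ring

theorem cylA_sum [Fintype I] [DecidableEq I] {σ : Type} (s : Finset σ)
    (F : σ → (Fin k → I → Bool) → ℂ) (α : σ → ℂ) {B : ℝ} (h : ∀ t ∈ s, Cyl (F t) B) :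
    Cyl (fun y => ∑ t ∈ s, α t * F t y) ((∑ t ∈ s, ‖α t‖) * B) := by
  intro χ h1 h2
  have h3 : ∑ y, sgi y * (∑ t ∈ s, α t * F t y) * ∏ j, χ j y =
      ∑ t ∈ s, α t * ∑ y, sgi y * F t y * ∏ j, χ j y := by
    simp_rw [mul_sum, sum_mul]
    rw [sum_comm]
    refine sum_congr rfl fun t _ => sum_congr rfl fun y _ => by ring
  rw [h3, sum_mul]
  refine (norm_sum_le _ _).trans (sum_le_sum fun t ht => ?_)
  rw [norm_mul]
  exact mul_le_mul_of_nonneg_left (h t ht χ h1 h2) (norm_nonneg _)

end parties

end CliqueCert
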