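import Mathlib

/-!
# Integer weights for threshold functions (Muroga)

A system of inequalities `1 ≤ a · z` with coefficients in `{-1, 0, 1}` which has a real solution has
an integer solution with entries at most `n !`, `n` the number of the variables. So every threshold
function on a set of 0/1 vectors has integer weights of this size.
-/

set_option autoImplicit false

open Finset

namespace Pool.Agent.CERT

variable {τ : Type} [Fintype τ] [DecidableEq τ]

/-- The normals of the tight constraints at `z`. -/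
def tightSet (R : Finset (τ → ℤ)) (z : τ → ℝ) : Set (τ → ℝ) :=
  {x | (∃ a ∈ R, ∑ i, (a i : ℝ) * z i = 1 ∧ x = fun i => (a i : ℝ)) ∨
    ∃ i, z i = 0 ∧ x = Pi.single i 1}

/-- A functional is a dot product. -/
lemma functional_eq (f : (τ → ℝ) →ₗ[ℝ] ℝ) (x : τ → ℝ) :
    f x = ∑ i, x i * f (Pi.single i 1) := by
  conv_lhs => rw [← Finset.univ_sum_single x, map_sum]
  refine sum_congr rfl fun i _ => ?_
  have h : Pi.single i (x i) = x i • (Pi.single i (1 : ℝ) : τ → ℝ) := by
    ext l
    simp [Pi.single_apply]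
  rw [h, map_smul, smul_eq_mul]

/-- One move to a point with more tight constraints. -/
lemma move {R : Finset (τ → ℤ)} {z : τ → ℝ} (hz : ∀ a ∈ R, 1 ≤ ∑ i, (a i : ℝ) * z i)
    {f : (τ → ℝ) →ₗ[ℝ] ℝ} (hf0 : ∃ i, 0 < -(z i) * f (Pi.single i 1))
    (hf : Submodule.span ℝ (tightSet R z) ≤ LinearMap.ker f) :
    ∃ z' : τ → ℝ, (∀ a ∈ R, 1 ≤ ∑ i, (a i : ℝ) * z' i) ∧
      Submodule.span ℝ (tightSet R z) < Submodule.span ℝ (tightSet R z') := by
  classical
  set v : τ → ℝ := fun i => f (Pi.single i 1) with hv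
  have hfa : ∀ a : τ → ℤ, f (fun i => (a i : ℝ)) = ∑ i, (a i : ℝ) * v i := fun a =>
    functional_eq f _
  have hker : ∀ x ∈ tightSet R z, f x = 0 := fun x hx =>
    LinearMap.mem_ker.1 (hf (Submodule.subset_span hx))
  set T : Finset ℝ := ((univ.filter fun i => v i ≠ 0).image fun i => -z i / v i) ∪
    ((R.filter fun a => ∑ i, (a i : ℝ) * v i < 0).image fun a =>
      (1 - ∑ i, (a i : ℝ) * z i) / ∑ i, (a i : ℝ) * v i) with hT
  have hne : (T.filter fun t => 0 < t).Nonempty := by
    obtain ⟨i, hi⟩ := hf0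
    have hvi : v i ≠ 0 := by
      intro h
      rw [show f (Pi.single i 1) = v i from rfl, h, mul_zero] at hi
      exact lt_irrefl _ hi
    refine ⟨-z i / v i, mem_filter.2 ⟨mem_union_left _ (mem_image.2 ⟨i, by simp [hvi], rfl⟩), ?_⟩⟩
    have : -z i / v i = (-z i * v i) / (v i ^ 2) := by field_simp
    rw [this]
    exact div_pos hi (by positivity)
  obtain ⟨t, ht, htmin⟩ : ∃ t ∈ T.filter fun t => 0 < t, ∀ s ∈ T.filter fun t => 0 < t, t ≤ s :=
    ⟨_, min'_mem _ hne, fun s hs => min'_le _ s hs⟩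
  obtain ⟨htT, ht0⟩ := mem_filter.1 ht
  have hlin : ∀ a : τ → ℤ, ∑ i, (a i : ℝ) * (z i + t * v i) =
      ∑ i, (a i : ℝ) * z i + t * ∑ i, (a i : ℝ) * v i := by
    intro a
    rw [mul_sum, ← sum_add_distrib]
    refine sum_congr rfl fun i _ => by ring
  have hsub : tightSet R z ⊆ tightSet R (fun i => z i + t * v i) := by
    rintro x (⟨a, ha, h1, rfl⟩ | ⟨i, h1, rfl⟩)
    · left
      refine ⟨a, ha, ?_, rfl⟩
      have h2 := hker _ (Or.inl ⟨a, ha, h1, rfl⟩)
      rw [hfa] at h2
      rw [hlin, h1, h2, mul_zero, add_zero]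
    · right
      refine ⟨i, ?_, rfl⟩
      have h2 := hker _ (Or.inr ⟨i, h1, rfl⟩)
      have h3 : v i = 0 := h2
      simp [h1, h3]
  refine ⟨fun i => z i + t * v i, ?_, ?_⟩
  · intro a ha
    rw [hlin]
    rcases le_or_gt 0 (∑ i, (a i : ℝ) * v i) with h | h
    · nlinarith [hz a ha, mul_nonneg ht0.le h]
    · have h1 : 1 < ∑ i, (a i : ℝ) * z i := by
        refine lt_of_le_of_ne (hz a ha) fun h2 => ?_
        have h3 := hker _ (Or.inl ⟨a, ha, h2.symm, rfl⟩)
        rw [hfa] at h3
        linarith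
      have h2 := htmin ((1 - ∑ i, (a i : ℝ) * z i) / ∑ i, (a i : ℝ) * v i) (mem_filter.2
        ⟨mem_union_right _ (mem_image.2 ⟨a, mem_filter.2 ⟨ha, h⟩, rfl⟩),
          div_pos_of_neg_of_neg (by linarith) h⟩)
      rw [le_div_iff_of_neg h] at h2
      linarith
  · refine lt_of_le_of_ne (Submodule.span_mono hsub) fun heq => ?_
    have hnew : ∃ x ∈ tightSet R (fun i => z i + t * v i), f x ≠ 0 := by
      rcases mem_union.1 htT with h | h
      · obtain ⟨i, hi, rfl⟩ := mem_image.1 h
        have hvi : v i ≠ 0 := (mem_filter.1 hi).2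
        refine ⟨Pi.single i 1, Or.inr ⟨i, ?_, rfl⟩, hvi⟩
        field_simp
        ring
      · obtain ⟨a, ha, rfl⟩ := mem_image.1 h
        obtain ⟨haR, hav⟩ := mem_filter.1 ha
        refine ⟨_, Or.inl ⟨a, haR, ?_, rfl⟩, ?_⟩
        · rw [hlin, div_mul_cancel₀ _ hav.ne]
          ring
        · rw [hfa]
          exact hav.ne
    obtain ⟨x, hx, hfx⟩ := hnew
    have h1 : x ∈ Submodule.span ℝ (tightSet R z) := by
      rw [heq]
      exact Submodule.subset_span hx
    exact hfx (LinearMap.mem_ker.1 (hf h1))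

/-- A solution whose tight constraints span. -/
lemma exists_vertex (R : Finset (τ → ℤ)) : ∀ (N : ℕ) (z : τ → ℝ),
    (∀ a ∈ R, 1 ≤ ∑ i, (a i : ℝ) * z i) →
    Fintype.card τ - Module.finrank ℝ (Submodule.span ℝ (tightSet R z)) = N →
    ∃ z' : τ → ℝ, (∀ a ∈ R, 1 ≤ ∑ i, (a i : ℝ) * z' i) ∧
      Submodule.span ℝ (tightSet R z') = ⊤ := by
  intro N
  induction N using Nat.strong_induction_on with
  | _ N ih =>
  intro z hz hN
  by_cases htop : Submodule.span ℝ (tightSet R z) = ⊤
  · exact ⟨z, hz, htop⟩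
  obtain ⟨f, hf0, hf⟩ := Submodule.exists_le_ker_of_lt_top _ (lt_top_iff_ne_top.2 htop)
  have hex : ∃ i, f (Pi.single i 1) ≠ 0 := by
    by_contra hcon
    push Not at hcon
    apply hf0
    ext i
    simpa using hcon i
  obtain ⟨i, hi⟩ := hex
  have hzi : z i ≠ 0 := by
    intro h
    apply hi
    exact LinearMap.mem_ker.1 (hf (Submodule.subset_span (Or.inr ⟨i, h, rfl⟩)))
  have hgo : ∀ g : (τ → ℝ) →ₗ[ℝ] ℝ, 0 < -(z i) * g (Pi.single i 1) →
      Submodule.span ℝ (tightSet R z) ≤ LinearMap.ker g →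
      ∃ z' : τ → ℝ, (∀ a ∈ R, 1 ≤ ∑ i, (a i : ℝ) * z' i) ∧
        Submodule.span ℝ (tightSet R z') = ⊤ := by
    intro g hg1 hg2
    obtain ⟨z', hz', hlt⟩ := move hz ⟨i, hg1⟩ hg2
    have h1 := Submodule.finrank_lt_finrank_of_lt hlt
    have h2 := Submodule.finrank_le (Submodule.span ℝ (tightSet R z'))
    rw [Module.finrank_fintype_fun_eq_card] at h2
    exact ih _ (by omega) z' hz' rfl
  rcases lt_or_gt_of_ne (mul_ne_zero (neg_ne_zero.2 hzi) hi) with h | h
  · refine hgo (-f) ?_ ?_
    · rw [LinearMap.neg_apply, mul_neg]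
      linarith
    · intro x hx
      rw [LinearMap.mem_ker, LinearMap.neg_apply, LinearMap.mem_ker.1 (hf hx), neg_zero]
  · exact hgo f h hf

/-- A solvable system with coefficients `-1, 0, 1` has a small integer solution. -/
theorem int_solution (R : Finset (τ → ℤ)) (hR : ∀ a ∈ R, ∀ i, |a i| ≤ 1) (z : τ → ℝ)
    (hz : ∀ a ∈ R, 1 ≤ ∑ i, (a i : ℝ) * z i) :
    ∃ z' : τ → ℤ, (∀ a ∈ R, 1 ≤ ∑ i, a i * z' i) ∧ ∀ i, |z' i| ≤ (Fintype.card τ).factorial := by
  classical
  obtain ⟨z, hz, hspan⟩ := exists_vertex R _ z hz rfl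
  obtain ⟨b, hbG, hb, hli⟩ := exists_linearIndependent ℝ (tightSet R z)
  rw [hspan] at hb
  let B : Module.Basis b ℝ (τ → ℝ) := Module.Basis.mk hli (by
    rw [Subtype.range_coe_subtype, Set.ofPred_mem_eq, hb])
  let ee : b ≃ τ := B.indexEquiv (Pi.basisFun ℝ τ)
  have hch : ∀ j : τ, ∃ (m : τ → ℤ) (c : ℤ), ((ee.symm j : b) : τ → ℝ) = (fun i => (m i : ℝ)) ∧
      (∀ i, |m i| ≤ 1) ∧ |c| ≤ 1 ∧ ∑ i, (m i : ℝ) * z i = c := by
    intro j
    rcases hbG (ee.symm j).2 with ⟨a, ha, h1, h2⟩ | ⟨i, h1, h2⟩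
    · exact ⟨a, 1, h2, hR a ha, by norm_num, by simpa using h1⟩
    · refine ⟨Pi.single i 1, 0, ?_, ?_, by norm_num, ?_⟩
      · rw [h2]
        ext l
        by_cases hl : l = i
        · subst hl; simp
        · simp [hl]
      · intro l
        by_cases hl : l = i
        · subst hl; simp
        · simp [hl]
      · rw [sum_eq_single i]
        · simp [h1]
        · intro l _ hl
          simp [hl]
        · simp
  choose m c hm hm1 hc1 hmc using hch
  set M : Matrix τ τ ℤ := Matrix.of m with hM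
  set Mr : Matrix τ τ ℝ := (Int.castRingHom ℝ).mapMatrix M with hMr
  have hrow : ∀ j, Mr.row j = ((ee.symm j : b) : τ → ℝ) := by
    intro j
    rw [hm j]
    rfl
  have hunit : IsUnit Mr := by
    rw [← Matrix.linearIndependent_rows_iff_isUnit]
    have : Mr.row = (fun x : b => (x : τ → ℝ)) ∘ ee.symm := by
      ext j : 1
      exact hrow j
    rw [this]
    exact hli.comp _ ee.symm.injective
  have hdet : M.det ≠ 0 := by
    intro h
    have h1 : Mr.det = 0 := by
      rw [hMr, ← RingHom.map_det, h, map_zero]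
    exact ((Matrix.isUnit_iff_isUnit_det _).1 hunit).ne_zero h1
  have hMz : Mr.mulVec z = fun j => (c j : ℝ) := by
    ext j
    exact hmc j
  have hcr : ∀ i, (M.det : ℝ) * z i = ((M.adjugate.mulVec c i : ℤ) : ℝ) := by
    intro i
    have h1 : Mr.adjugate.mulVec (Mr.mulVec z) = Mr.det • z := by
      rw [Matrix.mulVec_mulVec, Matrix.adjugate_mul, Matrix.smul_mulVec, Matrix.one_mulVec]
    rw [hMz] at h1
    have h2 := congrFun h1 i
    rw [Pi.smul_apply, smul_eq_mul] at h2
    have h3 : Mr.det = (M.det : ℝ) := by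
      rw [hMr, ← RingHom.map_det]; rfl
    rw [h3] at h2
    rw [← h2, hMr, ← RingHom.map_adjugate]
    simp only [Matrix.mulVec, dotProduct]
    push_cast
    rfl
  refine ⟨fun i => M.det.sign * M.adjugate.mulVec c i, ?_, ?_⟩
  · intro a ha
    have h1 : ((∑ i, a i * (M.det.sign * M.adjugate.mulVec c i) : ℤ) : ℝ) =
        |(M.det : ℝ)| * ∑ i, (a i : ℝ) * z i := by
      rw [Int.cast_sum, mul_sum]
      refine sum_congr rfl fun i _ => ?_
      have h2 : ((M.det.sign : ℤ) : ℝ) * (M.det : ℝ) = |(M.det : ℝ)| := by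
        rw [← Int.cast_mul, Int.sign_mul_self_eq_abs, Int.cast_abs]
      rw [Int.cast_mul, Int.cast_mul, ← hcr i, ← h2]
      ring
    have h2 : (1 : ℝ) ≤ |(M.det : ℝ)| := by
      rw [← Int.cast_abs]
      exact_mod_cast Int.one_le_abs hdet
    have h3 : (1 : ℝ) ≤ ((∑ i, a i * (M.det.sign * M.adjugate.mulVec c i) : ℤ) : ℝ) := by
      rw [h1]
      nlinarith [hz a ha]
    exact_mod_cast h3
  · intro i
    have h1 : M.adjugate.mulVec c i = (M.updateCol i c).det := by
      rw [← Matrix.cramer_eq_adjugate_mulVec, Matrix.cramer_apply]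
    have h2 : |(M.updateCol i c).det| ≤ (Fintype.card τ).factorial := by
      have h3 := Matrix.det_le (A := M.updateCol i c) (abv := AbsoluteValue.abs) (x := (1 : ℤ))
        (fun j l => by
          rw [AbsoluteValue.abs_apply, Matrix.updateCol_apply]
          split_ifs
          · exact hc1 j
          · exact hm1 j l)
      simpa using h3
    show |M.det.sign * M.adjugate.mulVec c i| ≤ _
    rw [h1, abs_mul]
    calc |M.det.sign| * |(M.updateCol i c).det| ≤ 1 * (Fintype.card τ).factorial := by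
          gcongr
          rcases lt_trichotomy M.det 0 with h | h | h
          · rw [Int.sign_eq_neg_one_of_neg h]; norm_num
          · rw [h]; norm_num
          · rw [Int.sign_eq_one_of_pos h]; norm_num
      _ = _ := one_mul _

/-- Integer weights for threshold functions on a finite set of 0/1 vectors. -/
theorem muroga {σ : Type} [Fintype σ] [DecidableEq σ] (H : Finset (σ → Bool)) (w : σ → ℝ)
    (θ : ℝ) : ∃ (w' : σ → ℤ) (θ' : ℤ),
      (∀ g ∈ H, θ ≤ ∑ i, (if g i = true then w i else 0) ↔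
        θ' ≤ ∑ i, (if g i = true then w' i else 0)) ∧
      (∀ i, |w' i| ≤ (Fintype.card σ + 1).factorial) ∧ |θ'| ≤ (Fintype.card σ + 1).factorial := by
  classical
  -- a threshold strictly between
  obtain ⟨η, hη0, hη⟩ : ∃ η : ℝ, 0 < η ∧ ∀ g ∈ H,
      ¬ θ ≤ ∑ i, (if g i = true then w i else 0) →
        ∑ i, (if g i = true then w i else 0) + 2 * η ≤ θ := by
    induction H using Finset.induction_on with
    | empty => exact ⟨1, one_pos, by simp⟩
    | insert g H _ ih =>
      obtain ⟨η, h0, h1⟩ := ih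
      by_cases hg : θ ≤ ∑ i, (if g i = true then w i else 0)
      · refine ⟨η, h0, fun g' hg' hn => ?_⟩
        rcases mem_insert.1 hg' with rfl | h
        · exact absurd hg hn
        · exact h1 g' h hn
      · push Not at hg
        refine ⟨min η ((θ - ∑ i, (if g i = true then w i else 0)) / 2),
          lt_min h0 (by linarith), fun g' hg' hn => ?_⟩
        rcases mem_insert.1 hg' with rfl | h
        · linarith [min_le_right η ((θ - ∑ i, (if g' i = true then w i else 0)) / 2)]
        · linarith [h1 g' h hn, min_le_left η ((θ - ∑ i, (if g i = true then w i else 0)) / 2)]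
  let sg : (σ → Bool) → ℤ := fun g => if θ ≤ ∑ i, (if g i = true then w i else 0) then 1 else -1
  let row : (σ → Bool) → Option σ → ℤ := fun g o => sg g * o.elim 1 fun i => if g i = true then 1 else 0
  have hsg : ∀ g, |sg g| = 1 := by
    intro g
    simp only [sg]
    split_ifs <;> simp
  obtain ⟨z, hz, hzb⟩ := int_solution (H.image row)
    (fun a ha i => by
      obtain ⟨g, _, rfl⟩ := mem_image.1 ha
      simp only [row]
      rw [abs_mul, hsg, one_mul]
      rcases i with _ | i
      · simp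
      · simp only [Option.elim_some]
        split_ifs <;> simp)
    (fun o => o.elim (-(θ - η) / η) fun i => w i / η)
    (fun a ha => by
      obtain ⟨g, hg, rfl⟩ := mem_image.1 ha
      rw [Fintype.sum_option]
      simp only [row, Option.elim_none, Option.elim_some, mul_one]
      have h1 : ∀ i, ((sg g * (if g i = true then 1 else 0) : ℤ) : ℝ) * (w i / η) =
          (sg g : ℝ) * ((if g i = true then w i else 0) / η) := by
        intro i
        split_ifs <;> push_cast <;> ring
      simp_rw [h1]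
      rw [← mul_sum, ← sum_div, ← mul_add, ← add_div]
      by_cases h : θ ≤ ∑ i, (if g i = true then w i else 0)
      · have h2 : sg g = 1 := if_pos h
        rw [h2, Int.cast_one, one_mul, le_div_iff₀ hη0]
        linarith
      · have h2 : sg g = -1 := if_neg h
        have h3 := hη g hg h
        rw [h2, Int.cast_neg, Int.cast_one, neg_one_mul, ← neg_div, le_div_iff₀ hη0]
        linarith)
  refine ⟨fun i => z (some i), -z none, fun g hg => ?_, fun i => ?_, ?_⟩
  · have h1 := hz (row g) (mem_image_of_mem _ hg)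
    rw [Fintype.sum_option] at h1
    simp only [row, Option.elim_none, Option.elim_some, mul_one] at h1
    have h2 : ∑ i, sg g * (if g i = true then 1 else 0) * z (some i) =
        sg g * ∑ i, (if g i = true then z (some i) else 0) := by
      rw [mul_sum]
      refine sum_congr rfl fun i _ => ?_
      split_ifs <;> ring
    rw [h2, ← mul_add] at h1
    by_cases h : θ ≤ ∑ i, (if g i = true then w i else 0)
    · have h3 : sg g = 1 := if_pos h
      rw [h3] at h1
      refine ⟨fun _ => by linarith, fun _ => h⟩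
    · have h3 : sg g = -1 := if_neg h
      rw [h3] at h1
      exact ⟨fun h' => absurd h' h, fun h' => by linarith⟩
  · have := hzb (some i)
    rwa [Fintype.card_option] at this
  · have := hzb none
    rw [Fintype.card_option] at this
    rwa [abs_neg]

end Pool.Agent.CERT
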